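import Pool.Agent.H.MP_0dad12_an.E

set_option autoImplicit false

namespace Pool.Agent.H.MP_c44838_an

open Finset Filter Topology Pool.Agent.H.MP_0dad12_an

theorem tr_rank {ι : Type} [Fintype ι] [DecidableEq ι] (P : Matrix ι ι ℂ) (h : P * P = P) :
    P.trace = P.rank := by
  have h1 : IsIdempotentElem (Matrix.toLin' P) := by
    change Matrix.toLin' P ∘ₗ Matrix.toLin' P = _
    rw [← Matrix.toLin'_mul, h]
  have := (LinearMap.IsIdempotentElem.isProj_range _ h1).trace
  rw [Matrix.trace_toLin'_eq] at this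
  exact this

theorem rank_le {ι : Type} [Fintype ι] [DecidableEq ι] (P Q b : Matrix ι ι ℂ) (h : P * P = P)
    (hu : IsUnit (P * b * Q * b * P + 1 - P)) : P.rank ≤ Q.rank := by
  rw [← Matrix.rank_mul_eq_right_of_isUnit_det _ P ((Matrix.isUnit_iff_isUnit_det _).1 hu)]
  have : (P * b * Q * b * P + 1 - P) * P = P * b * Q * (b * P) := by
    rw [sub_mul, add_mul, one_mul, h, mul_assoc _ P P, h, add_sub_cancel_right, mul_assoc _ b P]
  rw [this]
  exact (Matrix.rank_mul_le_left _ _).trans (Matrix.rank_mul_le_right _ _)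

variable {B : Type} [CStarAlgebra B]

/-- every matrix representation of a closed subalgebra containing `x` has size divisible by `m` -/
def Gd (m : ℕ) (x : B) : Prop := ∀ (D : StarSubalgebra ℂ B), IsClosed (D : Set B) → x ∈ D →
  ∀ (ι : Type) [Fintype ι] [DecidableEq ι], (D →⋆ₐ[ℂ] Matrix ι ι ℂ) → m ∣ Fintype.card ι

/-- a generator -/
noncomputable def gen {m : ℕ} (e : Fin m → Fin m → B) (c : ℝ) : B :=
  c • (∑ i : Fin m, ((i : ℕ) : ℝ) • e i i + Complex.I • ∑ a, ∑ b, e a b)

/-- bump -/
noncomputable def bf (i : ℕ) (t : ℝ) : ℝ := max 0 (min 1 (2 - 4 * |t - i|))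

theorem bf_eq {i j : ℕ} {t : ℝ} (h : |t - j| < 1 / 4) : bf i t = if i = j then 1 else 0 := by
  unfold bf
  split_ifs with hij
  · subst hij
    rw [min_eq_left (by linarith), max_eq_right zero_le_one]
  · have h1 : (1 : ℝ) ≤ |(j : ℝ) - i| := by
      have : (1 : ℤ) ≤ |(j : ℤ) - i| := Int.one_le_abs (by omega)
      exact_mod_cast this
    have h2 : |(j : ℝ) - i| ≤ |t - j| + |t - i| := by
      have := abs_sub (t - i) (t - j)
      rw [show t - i - (t - j) = (j : ℝ) - i by ring] at this
      linarith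
    exact max_eq_left ((min_le_right _ _).trans (by linarith))

theorem good_near {m : ℕ} {e : Fin m → Fin m → B} (he : MU e) {c : ℝ} (hc : c ≠ 0) :
    ∀ᶠ x in 𝓝 (gen e c), Gd m x := by
  set H : B := ∑ i : Fin m, ((i : ℕ) : ℝ) • e i i with hH
  set Jm : B := ∑ a, ∑ b, e a b with hJ
  have sH : star H = H := by simp [hH, star_sum, he.st]
  have sJ : star Jm = Jm := by
    simp only [hJ, star_sum, he.st]
    exact sum_comm
  let h : B → B := fun x => (2 * c)⁻¹ • (x + star x)
  let k : B → B := fun x => ((2 * c * Complex.I)⁻¹ : ℂ) • (x - star x)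
  have hs : ∀ x, IsSelfAdjoint (h x) := fun x =>
    (IsSelfAdjoint.all _).smul (IsSelfAdjoint.add_star_self x)
  have ch : Continuous h := by fun_prop
  have ck : Continuous k := by fun_prop
  have hv : h (gen e c) = H := by
    simp only [h, gen, ← hH, ← hJ, star_smul, star_add, sH, sJ, star_trivial, Complex.star_def,
      Complex.conj_I]
    rw [← smul_add, smul_smul, neg_smul]
    have : H + Complex.I • Jm + (H + -(Complex.I • Jm)) = (2 : ℝ) • H := by
      rw [two_smul]; abel
    rw [this, smul_smul]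
    field_simp
    simp
  have kv : k (gen e c) = Jm := by
    simp only [k, gen, ← hH, ← hJ, star_smul, star_add, sH, sJ, star_trivial, Complex.star_def,
      Complex.conj_I]
    rw [← smul_sub, neg_smul]
    have : H + Complex.I • Jm - (H + -(Complex.I • Jm)) = (2 * Complex.I : ℂ) • Jm := by
      rw [mul_smul, two_smul]; abel
    rw [this, ← Complex.coe_smul, smul_smul, smul_smul]
    have : (c : ℂ) ≠ 0 := by exact_mod_cast hc
    field_simp
    simp
  have He : ∀ j, H * e j j = ((j : ℕ) : ℝ) • e j j := fun j => by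
    simp [hH, sum_mul, he.mul]
  have spH : spectrum ℝ H ⊆ Set.range fun i : Fin m => ((i : ℕ) : ℝ) := by
    intro t ht
    by_contra hn
    apply ht
    have hne : ∀ i : Fin m, t - ((i : ℕ) : ℝ) ≠ 0 := fun i h0 => hn ⟨i, (sub_eq_zero.1 h0).symm⟩
    have e1 : algebraMap ℝ B t - H = ∑ i : Fin m, (t - ((i : ℕ) : ℝ)) • e i i := by
      simp only [sub_smul, sum_sub_distrib, ← smul_sum, he.sum, Algebra.algebraMap_eq_smul_one, hH]
    have key : ∀ f g : Fin m → ℝ, (∀ i, f i * g i = 1) →
        (∑ i, f i • e i i) * ∑ i, g i • e i i = 1 := by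
      intro f g hfg
      simp [sum_mul, mul_sum, he.mul, smul_smul, mul_comm (g _), hfg, he.sum]
    change IsUnit (algebraMap ℝ B t - H)
    rw [e1]
    exact ⟨⟨_, ∑ i : Fin m, (t - ((i : ℕ) : ℝ))⁻¹ • e i i,
      key _ _ fun i => mul_inv_cancel₀ (hne i), key _ _ fun i => inv_mul_cancel₀ (hne i)⟩, rfl⟩
  have fin : (spectrum ℝ H).Finite := (Set.finite_range _).subset spH
  have sH' : IsSelfAdjoint H := sH
  have cb : ∀ i, Continuous (bf i) := fun i => by unfold bf; fun_prop
  have EH : ∀ i : Fin m, cfc (bf i) H = e i i := by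
    intro i
    have : ∀ j : Fin m, cfc (bf i) H * e j j = bf i (j : ℕ) • e j j := by
      intro j
      let g : ℝ → ℝ := fun t => (bf i t - bf i (j : ℕ)) / (t - (j : ℕ))
      have e1 : cfc (bf i) H = cfc (fun t => g t * (t - (j : ℕ)) + bf i (j : ℕ)) H := by
        refine cfc_congr fun t _ => ?_
        by_cases ht : t - (j : ℕ) = 0
        · rw [ht, sub_eq_zero.1 ht]; simp
        · simp only [g]; field_simp; ring
      rw [e1, cfc_add_const _ _ _ (fin.continuousOn _), cfc_mul _ _ _ (fin.continuousOn _)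
        (fin.continuousOn _), cfc_sub _ _ _ (fin.continuousOn _) (fin.continuousOn _), cfc_id' ℝ H,
        cfc_const _ _, add_mul, mul_assoc, sub_mul, He, Algebra.algebraMap_eq_smul_one,
        Algebra.algebraMap_eq_smul_one]
      simp
    rw [← mul_one (cfc (bf i) H), ← he.sum, mul_sum]
    simp only [this]
    rw [sum_eq_single i (fun j _ hj => by
      rw [bf_eq (j := j) (by simp), if_neg (fun h => hj (Fin.ext h.symm)), zero_smul]) (by simp),
      bf_eq (j := i) (by simp), if_pos rfl, one_smul]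
  let E : Fin m → B → B := fun i x => cfc (bf i) (h x)
  have cE : ∀ i, Continuous (E i) := fun i =>
    Continuous.cfc_of_mem_nhdsSet (s := Set.univ) (bf i) univ_mem ch hs (cb i).continuousOn
  have ev1 : ∀ᶠ x in 𝓝 (gen e c), spectrum ℝ (h x) ⊆ ⋃ j : Fin m, Metric.ball ((j : ℕ) : ℝ) (1 / 4) := by
    have := (upperHemicontinuous_spectrum ℝ B).upperHemicontinuousAt (h (gen e c))
    rw [upperHemicontinuousAt_iff_forall_isOpen] at this
    refine ch.continuousAt.eventually (this _ (isOpen_iUnion fun _ => Metric.isOpen_ball) ?_)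
    rw [hv]
    refine spH.trans ?_
    rintro _ ⟨j, rfl⟩
    exact Set.mem_iUnion.2 ⟨j, Metric.mem_ball_self (by norm_num)⟩
  have ev2 : ∀ᶠ x in 𝓝 (gen e c), ∀ i j,
      IsUnit (E i x * k x * E j x * k x * E i x + 1 - E i x) := by
    refine eventually_all.2 fun i => eventually_all.2 fun j => ?_
    have c3 : Continuous fun x => E i x * k x * E j x * k x * E i x + 1 - E i x := by
      have := cE i
      have := cE j
      fun_prop
    refine c3.continuousAt.eventually (Units.isOpen.mem_nhds ?_)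
    have e1 : ∀ a b, e a a * Jm * e b b = e a b := fun a b => by
      simp [hJ, mul_sum, sum_mul, he.mul]
    have e2 : e i i * Jm * e j j * Jm * e i i = e i i := by
      have h1 : e j j = e j j * e j j := by rw [he.mul, if_pos rfl]
      rw [h1, ← mul_assoc, e1, mul_assoc, mul_assoc, ← mul_assoc (e j j), e1, he.mul, if_pos rfl]
    simp only [E, hv, kv, EH, e2, Set.mem_ofPred_eq, add_sub_cancel_left]
    exact isUnit_one
  filter_upwards [ev1, ev2] with x h1 h2 D hD hx ι _ _ Φ
  have hxD : h x ∈ D := by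
    have : h x = (((2 * c)⁻¹ : ℝ) : ℂ) • (x + star x) := (Complex.coe_smul _ _).symm
    rw [this]
    exact SMulMemClass.smul_mem _ (add_mem hx (star_mem hx))
  have kD : k x ∈ D := SMulMemClass.smul_mem _ (sub_mem hx (star_mem hx))
  have ED : ∀ i, E i x ∈ D := fun i => cfc_mem (𝕜' := ℂ) _ hxD
  have val : ∀ t ∈ spectrum ℝ (h x), ∃ j : Fin m, ∀ i : Fin m, bf i t = if i = j then 1 else 0 := by
    intro t ht
    obtain ⟨j, hj⟩ := Set.mem_iUnion.1 (h1 ht)
    refine ⟨j, fun i => ?_⟩
    rw [bf_eq (j := j) (by simpa [Real.dist_eq] using hj)]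
    simp [Fin.ext_iff]
  have idm : ∀ i, E i x * E i x = E i x := fun i => by
    simp only [E]
    rw [← cfc_mul _ _ _ (cb i).continuousOn (cb i).continuousOn]
    refine cfc_congr fun t ht => ?_
    obtain ⟨j, hj⟩ := val t ht
    simp only [hj]
    split_ifs <;> simp
  have sm : ∑ i, E i x = 1 := by
    simp only [E]
    rw [← cfc_sum (fun i : Fin m => bf i) (h x) univ fun i _ => (cb i).continuousOn,
      ← cfc_one ℝ (h x) (hs x)]
    refine cfc_congr fun t ht => ?_
    obtain ⟨j, hj⟩ := val t ht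
    simp [hj]
  let P : Fin m → Matrix ι ι ℂ := fun i => Φ ⟨E i x, ED i⟩
  have P1 : ∀ i, P i * P i = P i := fun i => by
    rw [← map_mul]; exact congrArg Φ (Subtype.ext (idm i))
  have P2 : ∑ i, P i = 1 := by
    rw [← map_sum, ← map_one Φ]; exact congrArg Φ (Subtype.ext (by simpa using sm))
  have P3 : ∀ i j, (P i).rank ≤ (P j).rank := fun i j => by
    refine rank_le _ _ (Φ ⟨k x, kD⟩) (P1 i) ?_
    rw [← map_mul, ← map_mul, ← map_mul, ← map_mul, ← map_one Φ, ← map_add, ← map_sub]
    exact (D.coe_isUnit.1 (h2 i j)).map Φ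
  have P4 : Fintype.card ι = ∑ i, (P i).rank := by
    have := congrArg Matrix.trace P2
    rw [Matrix.trace_sum, Matrix.trace_one] at this
    simp only [fun i => tr_rank _ (P1 i)] at this
    exact_mod_cast this.symm
  rcases isEmpty_or_nonempty (Fin m) with hm | ⟨⟨o⟩⟩
  · simp [P4]
  · rw [P4, sum_congr rfl fun i _ => le_antisymm (P3 i o) (P3 o i)]
    simp

theorem gen_norm {m : ℕ} {e : Fin m → Fin m → B} (he : MU e) :
    ‖gen e (1 / (2 * m * m + 1))‖ ≤ 1 := by
  have h1 : ∀ a b, ‖e a b‖ ≤ 1 := fun a b => by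
    have h1 : IsStarProjection (e b b) := ⟨(he.mul b b b b).trans (if_pos rfl), he.st b b⟩
    have h2 := h1.norm_le
    have h3 := he.mul b a a b
    rw [if_pos rfl, ← he.st a b] at h3
    rw [← h3, CStarRing.norm_star_mul_self] at h2
    nlinarith [norm_nonneg (e a b)]
  have h2 : ‖∑ i : Fin m, ((i : ℕ) : ℝ) • e i i‖ ≤ m * m := by
    refine (norm_sum_le _ _).trans ((sum_le_card_nsmul _ _ (m : ℝ) fun i _ => ?_).trans (by simp))
    rw [norm_smul, Real.norm_natCast]
    have : ((i : ℕ) : ℝ) ≤ m := by exact_mod_cast i.2.le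
    nlinarith [h1 i i, norm_nonneg (e i i), (Nat.cast_nonneg i : (0 : ℝ) ≤ (i : ℕ))]
  have h3 : ‖∑ a, ∑ b, e a b‖ ≤ m * m := by
    refine (norm_sum_le _ _).trans ((sum_le_card_nsmul _ _ (m : ℝ) fun i _ => ?_).trans (by simp))
    exact (norm_sum_le _ _).trans ((sum_le_card_nsmul _ _ (1 : ℝ) fun j _ => h1 i j).trans (by simp))
  rw [gen, norm_smul, Real.norm_of_nonneg (by positivity), one_div, inv_mul_le_iff₀ (by positivity)]
  refine (norm_add_le _ _).trans ?_
  rw [norm_smul, Complex.norm_I]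
  linarith

end Pool.Agent.H.MP_c44838_an
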