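import Pool.Agent.H.MP_c44838_an.A

set_option autoImplicit false

namespace Pool.Agent.H.MP_c44838_an

open Finset Cardinal Filter Topology Pool.Agent.H.MP_0dad12_an

variable {B : Type} [CStarAlgebra B] {J : Type} {n : J → ℕ} {φ : Fam n B}

theorem gd_dvd [Nontrivial B] {ι : Type} [Fintype ι] [DecidableEq ι]
    {e : ι → ι → B} (h : MU e) {x : B}
    (hx : ∀ p q r t, Commute (sl e p q x) (sl e r t x) ∧ Commute (star (sl e p q x)) (sl e r t x))
    {m : ℕ} (hg : Gd m x) : m ∣ Fintype.card ι := by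
  let s : Set B := Set.range fun p : ι × ι => sl e p.1 p.2 x
  let C := StarSubalgebra.centralizer ℂ (StarSubalgebra.centralizer ℂ s : Set B)
  have hC : IsClosed (C : Set B) := Set.isClosed_centralizer _
  have h1 : s ⊆ StarSubalgebra.centralizer ℂ s := by
    rintro _ ⟨p, rfl⟩
    rw [SetLike.mem_coe, StarSubalgebra.mem_centralizer_iff]
    rintro _ ⟨q, rfl⟩
    exact hx _ _ _ _
  have h2 : C ≤ StarSubalgebra.centralizer ℂ s := StarSubalgebra.centralizer_le ℂ _ _ h1
  have h3 : s ⊆ C := by
    intro y hy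
    rw [SetLike.mem_coe, StarSubalgebra.mem_centralizer_iff]
    intro z hz
    exact ⟨(((StarSubalgebra.mem_centralizer_iff ℂ).1 hz) y hy).1.symm,
      (((StarSubalgebra.mem_centralizer_iff ℂ).1 (star_mem hz)) y hy).1.symm⟩
  let _ : CommCStarAlgebra C := { StarSubalgebra.cstarAlgebra C with
    mul_comm := fun a b => Subtype.ext
      (((StarSubalgebra.mem_centralizer_iff ℂ).1 b.2) a (h2 a.2)).1 }
  obtain ⟨χ⟩ : Nonempty (WeakDual.characterSpace ℂ C) := inferInstance
  let D : StarSubalgebra ℂ B :=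
    { carrier := {z | ∀ p q, sl e p q z ∈ C}
      mul_mem' := fun {a b} ha hb p q => by
        rw [h.sl_mul]
        exact sum_mem fun r _ => mul_mem (ha _ _) (hb _ _)
      add_mem' := fun {a b} ha hb p q => by
        rw [sl_add]
        exact add_mem (ha _ _) (hb _ _)
      algebraMap_mem' := fun c p q => by
        rw [Algebra.algebraMap_eq_smul_one, sl_smul, h.sl_one]
        split_ifs
        · exact SMulMemClass.smul_mem _ (one_mem _)
        · simp
      star_mem' := fun {a} ha p q => by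
        rw [← h.sl_star]
        exact star_mem (ha _ _) }
  have hD : IsClosed (D : Set B) := by
    have : (D : Set B) = ⋂ p, ⋂ q, sl e p q ⁻¹' C := by
      ext z
      simp only [Set.mem_iInter]
      rfl
    rw [this]
    exact isClosed_iInter fun p => isClosed_iInter fun q => hC.preimage (sl_cont p q)
  let Φ : D →⋆ₐ[ℂ] Matrix ι ι ℂ :=
    { toFun := fun z => Matrix.of fun p q => χ ⟨sl e p q z, z.2 p q⟩
      map_one' := by
        ext p q
        rw [Matrix.of_apply, Matrix.one_apply]
        split_ifs with hpq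
        · rw [← map_one χ]
          exact congrArg χ (Subtype.ext ((h.sl_one p q).trans (if_pos hpq)))
        · rw [← map_zero χ]
          exact congrArg χ (Subtype.ext ((h.sl_one p q).trans (if_neg hpq)))
      map_mul' := fun a b => by
        ext p q
        simp only [Matrix.of_apply, Matrix.mul_apply, ← map_mul, ← map_sum]
        exact congrArg χ (Subtype.ext ((h.sl_mul p q a b).trans (by simp)))
      map_zero' := by
        ext p q
        rw [Matrix.of_apply, Matrix.zero_apply, ← map_zero χ]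
        exact congrArg χ (Subtype.ext (sl_zero p q))
      map_add' := fun a b => by
        ext p q
        simp only [Matrix.of_apply, Matrix.add_apply, ← map_add]
        exact congrArg χ (Subtype.ext (sl_add p q _ _))
      commutes' := fun c => by
        ext p q
        rw [Matrix.of_apply, Matrix.algebraMap_matrix_apply]
        have : sl e p q (algebraMap ℂ D c : D) = c • if p = q then 1 else 0 := by
          rw [← h.sl_one, ← sl_smul, Algebra.algebraMap_eq_smul_one]
          rfl
        split_ifs at this ⊢ with hpq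
        · rw [← AlgHomClass.commutes χ]
          exact congrArg χ (Subtype.ext (this.trans (Algebra.algebraMap_eq_smul_one c).symm))
        · rw [← map_zero χ]
          exact congrArg χ (Subtype.ext (this.trans (smul_zero c)))
      map_star' := fun a => by
        ext p q
        simp only [Matrix.of_apply, Matrix.star_apply, ← map_star]
        exact congrArg χ (Subtype.ext (h.sl_star q p a).symm) }
  exact hg D hD (fun p q => h3 ⟨(p, q), rfl⟩) ι Φ

theorem ne_unc (hc : Com φ) [Nontrivial B] (hd : Dense (Al φ Set.univ : Set B)) {K : Type}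
    (v : K → B) (h0 : ∀ a, ‖v a‖ ≤ 1) {π : ℕ} (hπ : π.Prime) (h1 : ∀ a, ∀ᶠ x in 𝓝 (v a), Gd π x)
    (h3 : ∀ a b, a ≠ b → Commute (v a) (v b) ∧ Commute (star (v a)) (v b))
    (hK : ℵ₀ < #K) (hJ : #{j | π ∣ n j} < #K) : False := by
  classical
  set η : ℕ → ℝ := fun l => 1 / ((l : ℝ) + 1) with hη
  have ηp : ∀ l, 0 < η l := fun l => Nat.one_div_pos_of_nat
  have η1 : ∀ l, η l ≤ 1 := fun l => by
    rw [hη, div_le_one (by positivity)]
    simp
  have ηm : ∀ k l, k ≤ l → η l ≤ η k := fun k l h => Nat.one_div_le_one_div h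
  have ηt : Tendsto η atTop (𝓝 0) := tendsto_one_div_add_atTop_nhds_zero_nat
  have ap : ∀ a l, ∃ F : Finset J, ∃ w ∈ Al φ F, ‖v a - w‖ ≤ η l := by
    intro a l
    obtain ⟨w, hw, h⟩ := hd.exists_dist_lt (v a) (ηp l)
    obtain ⟨F, hF⟩ := Al_fin hw
    exact ⟨F, w, hF, by rw [← dist_eq_norm]; exact h.le⟩
  choose F0 w hw0 hw using ap
  let F : K → ℕ → Finset J := fun a l => (range (l + 1)).biUnion (F0 a)
  have hF : ∀ a l, w a l ∈ Al φ (F a l) := fun a l =>
    Al_mono (coe_subset.2 (subset_biUnion_of_mem (F0 a) (self_mem_range_succ l))) (hw0 a l)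
  have Fm : ∀ a, Monotone (F a) := fun a k l h =>
    biUnion_subset_biUnion_of_subset_left _ (range_subset_range.2 (by omega))
  have wn : ∀ a l, ‖w a l‖ ≤ 2 := by
    intro a l
    have := norm_sub_norm_le (w a l) (v a)
    rw [norm_sub_rev] at this
    linarith [hw a l, h0 a, η1 l]
  choose d hdd using hc.dseq
  let Code : Type := ℕ × Σ M : ℕ, Fin M → Fin M → ℕ
  let Re : Finset J → Code → K → Prop := fun R c a => ∃ e : Fin c.2.1 → Fin c.2.1 → B, MU e ∧
    (∀ p q, e p q ∈ Al φ (F a c.1 \ R : Finset J)) ∧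
      ∀ p q, ‖sl e p q (w a c.1) - d R (c.2.2 p q)‖ < η c.1
  have : Nonempty K := mk_ne_zero_iff.1 (pos_of_gt hK).ne'
  let β : Finset J → Code → K := fun R c => Classical.epsilon (Re R c)
  obtain ⟨S, hS0, hS1, hS2⟩ := clos (fun R c => F (β R c) c.1) {j | π ∣ n j}
    (le_max_right ℵ₀ _) (le_max_left _ _)
  obtain ⟨α, hα⟩ : ∃ α, ∀ R : Finset J, ↑R ⊆ S → ∀ c, β R c ≠ α := by
    by_contra hcon
    push Not at hcon
    have hs : Function.Surjective
        fun p : List S × Code => β (p.1.map Subtype.val).toFinset p.2 := by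
      intro a
      obtain ⟨R, hR, c, h⟩ := hcon a
      refine ⟨(R.toList.pmap (fun j h => ⟨j, h⟩) (fun j hj => hR (by simpa using hj)), c), ?_⟩
      simpa [List.map_pmap] using h
    have := mk_le_of_surjective hs
    rw [mk_prod, lift_id, lift_id] at this
    exact (max_lt hK hJ).not_ge (this.trans (mul_le_of_le (le_max_left _ _)
      ((mk_list_le_max _).trans (max_le (le_max_left _ _) hS1))
      (mk_le_aleph0.trans (le_max_left _ _))))
  obtain ⟨ε, hε, hgood⟩ := Metric.eventually_nhds_iff.1 (h1 α)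
  obtain ⟨k, hk⟩ := (ηt.eventually (gt_mem_nhds (show 0 < ε / 3 by positivity))).exists
  let G := (F α k).filter (· ∉ S)
  let H : ℕ → Finset J := fun l => (F α l).filter (· ∉ S) \ G
  have Hm : Monotone H := fun a b h => sdiff_subset_sdiff (filter_subset_filter _ (Fm α h)) le_rfl
  obtain ⟨s0, hs0⟩ := hc.sy G
  obtain ⟨s, hs⟩ := hc.tower H Hm
  let x : ℕ → B := fun l => sl (s l).e (s l).o (s l).o (w α l)
  have hx : ∀ l l', l ≤ l' → ‖x l - x l'‖ ≤ 2 * η l := by
    intro l l' h
    have := hs l l' h (F α l) (by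
      rw [disjoint_coe, disjoint_left]
      intro j hj hj'
      simp only [H, Finset.mem_sdiff, Finset.mem_filter] at hj'
      exact hj'.2 ⟨⟨hj, hj'.1.1.2⟩, hj'.1.2⟩) _ (hF α l)
    simp only [x]
    rw [← this, ← sl_sub]
    refine ((s l').mu.norm_sl _ _ _).trans ?_
    have := norm_sub_le_norm_sub_add_norm_sub (w α l) (v α) (w α l')
    rw [norm_sub_rev (w α l) (v α)] at this
    linarith [hw α l, hw α l', ηm l l' h]
  obtain ⟨y, hy⟩ := cauchySeq_tendsto_of_complete (cauchySeq_of_le_tendsto_0' (s := x)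
    (fun l => 2 * η l) (fun a b h => by rw [dist_eq_norm]; exact hx a b h)
    (by simpa using ηt.const_mul 2))
  have hxk : x k = w α k := (s k).mu.sl_self _ fun a b =>
    hc.al (G' := H k) (by simp [H, G]) (hF α k) ((s k).mem a b)
  have hyk : ‖x k - y‖ ≤ 2 * η k :=
    le_of_tendsto ((tendsto_const_nhds.sub hy).norm) ((eventually_ge_atTop k).mono (hx k))
  refine absurd (gd_dvd (ι := Fin s0.N) s0.mu (x := y) (fun p q r t => ?_) (hgood ?_)) ?_
  rotate_left 2
  · rw [Fintype.card_fin, hs0, hπ.prime.dvd_finsetProd_iff]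
    rintro ⟨j, hj, h⟩
    exact (mem_filter.1 hj).2 (hS0 h)
  swap
  · rw [dist_eq_norm]
    have := norm_sub_le_norm_sub_add_norm_sub y (x k) (v α)
    rw [norm_sub_rev y (x k), norm_sub_rev (x k) (v α)] at this
    rw [hxk] at this hyk
    linarith [hw α k]
  have main : ∀ l, k ≤ l →
      ‖sl s0.e p q (x l) * sl s0.e r t (x l) - sl s0.e r t (x l) * sl s0.e p q (x l)‖ ≤ 14 * η l ∧
      ‖star (sl s0.e p q (x l)) * sl s0.e r t (x l) -
        sl s0.e r t (x l) * star (sl s0.e p q (x l))‖ ≤ 14 * η l := by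
    intro l hl
    obtain ⟨u, -, hu⟩ := hc.join (G := G) (H := H l) (by simpa [H] using Set.disjoint_sdiff_right)
      s0 (s l)
    obtain ⟨P, hP⟩ := hu p
    obtain ⟨Q, hQ⟩ := hP q
    obtain ⟨P', hP'⟩ := hu r
    obtain ⟨Q', hQ'⟩ := hP' t
    let R := (F α l).filter (· ∈ S)
    have hR : (R : Set J) ⊆ S := fun j hj => (mem_filter.1 hj).2
    have e1 : (G : Set J) ∪ H l = (F α l \ R : Finset J) := by
      rw [← coe_union, union_sdiff_of_subset (filter_subset_filter _ (Fm α hl))]
      ext j
      simp only [R, coe_filter, coe_sdiff, Set.mem_sdiff, Set.mem_ofPred_eq, mem_coe]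
      tauto
    have e2 : (R : Set J) ∪ ((G : Set J) ∪ H l) = F α l := by
      rw [e1, ← coe_union, union_sdiff_of_subset (filter_subset _ _)]
    have e3 := hc.sl_mem (R := R) (by rw [e1]; simpa using Set.disjoint_sdiff_right) u.mu u.mem
      u.rng (e2 ▸ hF α l)
    choose τ hτ using fun a b => hdd R _ (e3 a b) _ (ηp l)
    let c : Code := (l, ⟨u.N, τ⟩)
    obtain ⟨e', m', n', o'⟩ : Re R c (β R c) :=
      Classical.epsilon_spec (p := Re R c) ⟨α, u.e, u.mu, e1 ▸ u.mem, hτ⟩
    set b := β R c with hb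
    have hFb : (F b l : Set J) ⊆ S := hS2 R hR c
    have d1 : Disjoint (F b l : Set J) ((G : Set J) ∪ H l) := by
      rw [e1, Set.disjoint_left]
      intro j hj hj'
      simp only [R, coe_sdiff, coe_filter, Set.mem_sdiff, mem_coe, Set.mem_ofPred_eq] at hj'
      exact hj'.2 ⟨hj'.1, hFb hj⟩
    have d2 : Disjoint (F α l : Set J) (F b l \ R : Finset J) := by
      rw [Set.disjoint_left]
      intro j hj hj'
      simp only [R, coe_sdiff, coe_filter, Set.mem_sdiff, mem_coe, Set.mem_ofPred_eq] at hj'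
      exact hj'.2 ⟨hj, hFb hj'.1⟩
    set b' := sl e' P' Q' (w b l) with hb'
    have c1 : ∀ i j, Commute b' (u.e i j) := fun i j => (sl_comm P' Q'
      (fun i' j' => (hc.al d1 (Al_mono (coe_subset.2 sdiff_subset) (n' i' j')) (u.mem i j)).symm)
      (hc.al d1 (hF b l) (u.mem i j)).symm).symm
    have c2 : ‖sl s0.e r t (x l) - b'‖ ≤ 2 * η l := by
      have := norm_sub_le_norm_sub_add_norm_sub (sl u.e P' Q' (w α l)) (d R (τ P' Q')) b'
      rw [norm_sub_rev (d R _)] at this
      rw [← (hQ' _).1]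
      linarith [hτ P' Q', o' P' Q']
    have key : ∀ (z z' : B) (I L : Fin u.N), ‖z' - z‖ ≤ η l → ‖z‖ ≤ 2 → Commute z' (v b) →
        z ∈ Al φ (F α l) → ‖sl u.e I L z * sl s0.e r t (x l) - sl s0.e r t (x l) * sl u.e I L z‖ ≤
          14 * η l := by
      intro z z' I L k1 k2 k3 k4
      have k5 : ∀ i j, Commute z (e' i j) := fun i j => hc.al d2 k4 (n' i j)
      have k6 : sl u.e I L z * b' - b' * sl u.e I L z =
          sl u.e I L (sl e' P' Q' (z * w b l - w b l * z)) := by
        rw [sl_sub, sl_mul_left _ _ _ k5, sl_mul_right _ _ _ k5, sl_sub, sl_mul_left _ _ _ c1,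
          sl_mul_right _ _ _ c1]
      have k7 := (u.mu.norm_sl I L _).trans ((m'.norm_sl P' Q' _).trans
        (comm_est k3 k1 (hw b l) k2 (h0 b)))
      rw [← k6] at k7
      have k8 := (u.mu.norm_sl I L z).trans k2
      set A1 := sl u.e I L z
      set A2 := sl s0.e r t (x l)
      have k9 : A1 * A2 - A2 * A1 = (A1 * b' - b' * A1) + (A1 * (A2 - b') - (A2 - b') * A1) := by
        noncomm_ring
      rw [k9]
      refine (norm_add_le _ _).trans ?_
      have a1 := norm_sub_le (A1 * (A2 - b')) ((A2 - b') * A1)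
      have a2 := norm_mul_le A1 (A2 - b')
      have a3 := norm_mul_le (A2 - b') A1
      have a4 := norm_nonneg (A2 - b')
      nlinarith
    have hne : α ≠ b := (hα R hR c).symm
    constructor
    · rw [← (hQ _).1]
      exact key _ _ P Q (hw α l) (wn α l) (h3 α b hne).1 (hF α l)
    · rw [← (hQ _).1, u.mu.sl_star]
      exact key _ (star (v α)) Q P (by rw [← star_sub, norm_star]; exact hw α l)
        (by rw [norm_star]; exact wn α l) (h3 α b hne).2 (star_mem (hF α l))
  have t1 := ((sl_cont (e := s0.e) p q).tendsto y).comp hy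
  have t2 := ((sl_cont (e := s0.e) r t).tendsto y).comp hy
  have t3 : Tendsto (fun l => 14 * η l) atTop (𝓝 0) := by simpa using ηt.const_mul 14
  constructor
  · refine sub_eq_zero.1 (norm_le_zero_iff.1 (le_of_tendsto_of_tendsto
      ((t1.mul t2).sub (t2.mul t1)).norm t3 ?_))
    exact (eventually_ge_atTop k).mono fun l hl => (main l hl).1
  · refine sub_eq_zero.1 (norm_le_zero_iff.1 (le_of_tendsto_of_tendsto
      ((t1.star.mul t2).sub (t2.mul t1.star)).norm t3 ?_))
    exact (eventually_ge_atTop k).mono fun l hl => (main l hl).2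

end Pool.Agent.H.MP_c44838_an
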