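import Pool.Agent.H.MP_c44838_an.B

set_option autoImplicit false

namespace Pool.Agent.H.MP_c44838_an

open Finset Cardinal Filter Topology Pool.Agent.H.MP_0dad12_an

theorem dvd_hom {p k : ℕ} (hk : p ∣ k) :
    Nonempty (Matrix (Fin p) (Fin p) ℂ →⋆ₐ[ℂ] Matrix (Fin k) (Fin k) ℂ) := by
  obtain ⟨m, rfl⟩ := hk
  exact ⟨{ toFun := fun x => Matrix.reindexAlgEquiv ℂ ℂ finProdFinEquiv
             (Matrix.kroneckerMap (· * ·) x (1 : Matrix (Fin m) (Fin m) ℂ))
           map_one' := by rw [Matrix.one_kronecker_one, map_one]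
           map_mul' := fun x y => by rw [← map_mul, ← Matrix.mul_kronecker_mul, mul_one]
           map_zero' := by rw [Matrix.zero_kronecker, map_zero]
           map_add' := fun x y => by rw [Matrix.add_kronecker, map_add]
           commutes' := fun c => by
             rw [Algebra.algebraMap_eq_smul_one, Matrix.smul_kronecker, Matrix.one_kronecker_one,
               map_smul, map_one, Algebra.algebraMap_eq_smul_one]
           map_star' := fun x => by
             simp [Matrix.star_eq_conjTranspose, Matrix.conjTranspose_kronecker] }⟩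

theorem select {X I : Type} (S : X → Set I) (h : ∀ x, #X ≤ #(S x)) :
    ∃ g : X → I, Function.Injective g ∧ ∀ x, g x ∈ S x := by
  obtain ⟨r, wo, hr⟩ := Cardinal.exists_ord_eq X
  have step : ∀ x (f : ∀ y, r y x → I), ∃ i ∈ S x, ∀ y h, f y h ≠ i := by
    intro x f
    by_contra hcon
    push Not at hcon
    choose y hy e using hcon
    have h1 : #(S x) ≤ #{y // r y x} := mk_le_of_injective
      (f := fun i : S x => (⟨y i i.2, hy i i.2⟩ : {y // r y x})) fun i j hij => by
        apply Subtype.ext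
        rw [← e i i.2, ← e j j.2]
        have := congrArg (fun z : {y // r y x} => f z.1 z.2) hij
        exact this
    exact (card_typein_lt x hr).not_ge ((h x).trans h1)
  choose nx h1 h2 using step
  let g : X → I := wo.wf.fix nx
  have hg : ∀ x, g x = nx x fun y _ => g y := fun x => wo.wf.fix_eq nx x
  refine ⟨g, fun a b hab => ?_, fun x => hg x ▸ h1 _ _⟩
  rcases trichotomous_of r a b with h | h | h
  · exact absurd (hab.trans (hg b)) (h2 b (fun y _ => g y) a h)
  · exact h
  · exact absurd (hab.symm.trans (hg a)) (h2 a (fun y _ => g y) b h)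

variable {B : Type} [CStarAlgebra B] {J K : Type} {n : J → ℕ} {φ : Fam n B}

theorem gen_mem {m : ℕ} {e : Fin m → Fin m → B} (D : StarSubalgebra ℂ B) (h : ∀ a b, e a b ∈ D)
    (c : ℝ) : gen e c ∈ D := by
  simp only [gen, ← Complex.coe_smul]
  exact SMulMemClass.smul_mem _ (add_mem (sum_mem fun i _ => SMulMemClass.smul_mem _ (h _ _))
    (SMulMemClass.smul_mem _ (sum_mem fun a _ => sum_mem fun b _ => h a b)))

theorem size_ne [Nontrivial B] (φ : Fam n B) (j : J) : n j ≠ 0 := by
  intro h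
  have := (MU.ofHom (φ j)).sum
  have h2 : IsEmpty (Fin (n j)) := by rw [h]; infer_instance
  simp at this

theorem card_le' [Nontrivial B] (hφ : Com φ) (hd : Dense (Al φ Set.univ : Set B)) {p : ℕ}
    (hp : p.Prime) {ψ : Fam (fun _ : K => p) B} (hψ : Com ψ) [Infinite K] :
    #K ≤ #{j | p ∣ n j} := by
  classical
  by_contra hcon
  rw [not_le] at hcon
  rcases (aleph0_le_mk K).eq_or_lt with hK | hK
  · rw [← hK, lt_aleph0_iff_set_finite] at hcon
    set N := ∏ j ∈ hcon.toFinset, n j with hN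
    have N0 : N ≠ 0 := prod_ne_zero_iff.2 fun j _ => size_ne φ j
    obtain ⟨G, hG⟩ := Infinite.exists_subset_card_eq K N
    obtain ⟨M, e, he, -, -, hM⟩ := hψ.sys G
    rw [Finset.prod_const, hG] at hM
    obtain ⟨x, hx, hx'⟩ := hd.inter_nhds_nonempty (good_near he one_ne_zero)
    obtain ⟨F, hF⟩ := Al_fin hx
    obtain ⟨M', e', he', h1, h2, hM'⟩ := hφ.sys F
    have h3 := hφ.sl_mem (R := ∅) (by simp) he' h1 h2 (w := x) (by simpa using hF)
    have h4 := gd_dvd he' (fun a b c d => ⟨hφ.al (by simp) (h3 a b) (h3 c d),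
      hφ.al (by simp) (star_mem (h3 a b)) (h3 c d)⟩) hx'
    rw [Fintype.card_fin, hM', hM, ← prod_filter_mul_prod_filter_not F fun j => p ∣ n j] at h4
    have h5 : p ^ N ∣ N := (Nat.Coprime.dvd_of_dvd_mul_right (Nat.Coprime.pow_left _
      (Nat.Coprime.prod_right fun j hj => hp.coprime_iff_not_dvd.2 (mem_filter.1 hj).2)) h4).trans
      (prod_dvd_prod_of_subset _ _ _ fun j hj => by simpa using (mem_filter.1 hj).2)
    exact (Nat.lt_pow_self hp.one_lt).not_ge (Nat.le_of_dvd (Nat.pos_of_ne_zero N0) h5)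
  · have hm := fun a => MU.ofHom (ψ a)
    have hv := fun a => gen_mem (Al ψ {a}) (e := fun s t => ψ a (Matrix.single s t 1))
      (fun s t => mem_Al (Set.mem_singleton a) _) (1 / (2 * p * p + 1))
    exact ne_unc hφ hd _ (fun a => gen_norm (hm a)) hp
      (fun a => good_near (hm a) (by positivity))
      (fun a b h => ⟨hψ.al (by simpa using h) (hv a) (hv b),
        hψ.al (by simpa using h) (star_mem (hv a)) (hv b)⟩) hK hcon

theorem emb_of_card [Nontrivial B] (hφ : Com φ) {C : Type} [CStarAlgebra C] [Nontrivial C] {m : ℕ}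
    (hm : m ≠ 0) {χ : Fam (fun _ : K => m) C} (hχ : Com χ) (hd : Dense (Al χ Set.univ : Set C))
    [Infinite K] (h : ∀ p, p.Prime → p ∣ m → #K ≤ #{j | p ∣ n j}) :
    ∃ f : C →⋆ₐ[ℂ] B, Function.Injective f := by
  classical
  let L := m.primeFactorsList
  obtain ⟨g, hg, hg'⟩ := select (X := K × Fin L.length) (fun x => {j | L[x.2] ∣ n j}) fun x => by
    refine le_trans ?_ (h _ (Nat.prime_of_mem_primeFactorsList (List.getElem_mem _))
      (Nat.dvd_of_mem_primeFactorsList (List.getElem_mem _)))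
    rw [mk_prod, lift_id, lift_id]
    exact mul_le_of_le (aleph0_le_mk K) le_rfl (mk_le_aleph0.trans (aleph0_le_mk K))
  let G : K → Finset J := fun k => univ.image fun t => g (k, t)
  have : ∀ k, ∃ θ : Matrix (Fin m) (Fin m) ℂ →⋆ₐ[ℂ] B, ∀ x, θ x ∈ Al φ (G k) := by
    intro k
    obtain ⟨N, e, he, h1, -, hN⟩ := hφ.sys (G k)
    have : m ∣ N := by
      rw [hN, prod_image fun a _ b _ hab => (Prod.ext_iff.1 (hg hab)).2,
        ← Nat.prod_primeFactorsList hm, ← Fin.prod_univ_getElem]
      exact prod_dvd_prod_of_dvd _ _ fun t _ => hg' (k, t)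
    refine ⟨he.hom.comp (dvd_hom this).some, fun x => ?_⟩
    change ∑ a, ∑ b, (dvd_hom this).some x a b • e a b ∈ _
    exact sum_mem fun a _ => sum_mem fun b _ => SMulMemClass.smul_mem _ (h1 a b)
  choose θ hθ using this
  refine hχ.univ hd (ψ := θ) fun a b hab x y => hφ.al ?_ (hθ a x) (hθ b y)
  rw [disjoint_coe, disjoint_left]
  intro j h1 h2
  obtain ⟨s, -, rfl⟩ := mem_image.1 h1
  obtain ⟨t, -, ht⟩ := mem_image.1 h2
  exact hab (Prod.ext_iff.1 (hg ht)).1.symm

end Pool.Agent.H.MP_c44838_an
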